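import Pool.Agent.MP_1246c0_nt.H25.SpecN

/-! The character sum as an average over positions. -/

namespace Pool.Agent.MP_1246c0_nt.H25

open Finset Matrix Function Pool.Agent.MP_1246c0_nt.H12

namespace ADM

theorem sum_ind {α : Type} [Fintype α] (P : α → Prop) :
    ∑ a, ind (P a) = Nat.card {a // P a} := by
  classical
  simp only [ind, Nat.card_eq_fintype_card, Fintype.card_subtype, sum_boole]

theorem ind_and (P Q : Prop) : ind (P ∧ Q) = ind P * ind Q := by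
  by_cases hP : P <;> by_cases hQ : Q <;> simp [ind, hP, hQ]

variable {ι : Type} [Fintype ι] [DecidableEq ι] {ℓ κ : ℕ} (k : ℕ) (J1 J2 : Finset ι)
  (U : Set (Option ι → Vb ℓ)) (W : Set (Option ι ⊕ Bool → Vb ℓ)) (w : Option ι ⊕ Bool → Vb ℓ)
  (v : Option ι → Vb ℓ)

/-- admissible positions for a pair -/
def Ps0 (p : (Option (Fin k) ↪ ι) × ι) : Prop :=
  Pt J1 J2 p.1 p.2 ∧ ((∀ v ∈ U, ∀ s, v (some (p.1 (some s))) = 0) ∧
    ∀ w ∈ W, ∀ o, w (.inl (some (p.1 o))) = 0) ∧ w (.inl (some p.2)) ⬝ᵥ v (some (p.1 none)) = 1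

variable {k J1 J2 U W w v}

theorem low {μ : Md ℓ} (d : Disjoint J1 J2) (h : Gq μ κ J1 J2 U W) (hk : k ≤ μ.n) (hv : v ∈ U)
    (hw : w ∈ W) (w0 : w ≠ 0) (g : G3 (bar μ.g) (bar μ.s) (bar μ.u) v) :
    J1.card ^ k * J2.card ^ 2 ≤
      (2 * cS ℓ κ) ^ k * cS ℓ κ * Nat.card {p // Ps0 k J1 J2 U W w v p} := by
  classical
  have h1 := h.spr.one
  have h2 := h.spr.two ⟨v, hv⟩ ⟨w, hw⟩ g w0
  have h3 := h.big
  set G := {l // l ∈ J1 ∧ (∀ i : U, i.1 (some l) = 0) ∧ ∀ j : W, j.1 (.inl (some l)) = 0}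
  set Q := {q : ι × ι // q.1 ∈ J2 ∧ q.2 ∈ J2 ∧ (∀ j : W, j.1 (.inl (some q.1)) = 0) ∧
    w (.inl (some q.2)) ⬝ᵥ v (some q.1) = 1}
  have h4 : Nat.card ((Fin k ↪ G) × Q) ≤ Nat.card {p // Ps0 k J1 J2 U W w v p} := by
    refine Nat.card_le_card_of_injective (fun x => ⟨((x.1.trans (.subtype _)).optionElim x.2.1.1
      fun ⟨s, e⟩ => disjoint_left.1 d (x.1 s).2.1 (e ▸ x.2.2.1 :), x.2.1.2),
      ⟨fun s => (x.1 s).2.1, x.2.2.1, x.2.2.2.1, fun e => ?_⟩,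
      ⟨fun v hv s => (x.1 s).2.2.1 ⟨v, hv⟩, fun w hw o => ?_⟩, x.2.2.2.2.2⟩) fun x y e => ?_
    · have := x.2.2.2.2.2
      rw [← show x.2.1.1 = x.2.1.2 from e, show w _ = 0 from x.2.2.2.2.1 ⟨w, hw⟩,
        zero_dotProduct] at this
      exact zero_ne_one this
    · cases o
      exacts [x.2.2.2.2.1 ⟨w, hw⟩, (x.1 _).2.2.2 ⟨w, hw⟩]
    · obtain ⟨e1, e2⟩ := Prod.ext_iff.1 (congrArg Subtype.val e)
      exact Prod.ext (Embedding.ext fun s => Subtype.ext (DFunLike.congr_fun e1 (some s)))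
        (Subtype.ext (Prod.ext (DFunLike.congr_fun e1 none) e2))
  rw [Nat.card_prod, Nat.card_eq_fintype_card, Fintype.card_embedding_eq, Fintype.card_fin,
    ← Nat.card_eq_fintype_card] at h4
  have h5 : 2 * μ.n ≤ Nat.card G := Nat.le_of_mul_le_mul_left
    (by linarith : cS ℓ κ * (2 * μ.n) ≤ cS ℓ κ * Nat.card G) (by unfold cS; positivity)
  have h6 : J1.card ≤ 2 * cS ℓ κ * (Nat.card G + 1 - k) := by
    rw [mul_comm 2, mul_assoc]
    exact h1.trans (Nat.mul_le_mul_left _ (by omega))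
  calc _ ≤ (2 * cS ℓ κ * (Nat.card G + 1 - k)) ^ k * (cS ℓ κ * Nat.card Q) := by gcongr
    _ = (2 * cS ℓ κ) ^ k * cS ℓ κ * ((Nat.card G + 1 - k) ^ k * Nat.card Q) := by ring
    _ ≤ _ := Nat.mul_le_mul_left _
      ((Nat.mul_le_mul_right _ (Nat.pow_sub_le_descFactorial _ k)).trans h4)

end ADM

open ADM in
theorem rowADM : OfADM := by
  classical
  intro hP hZ
  refine ⟨fun ℓ k κ => ⟨((2 * cS ℓ κ) ^ k * cS ℓ κ : ℕ), Nat.cast_nonneg _,
    fun ι _ _ μ J1 J2 d => ⟨fun U W w v => if Gq μ κ J1 J2 U W ∧ w ≠ 0 ∧ J1.card ^ k * J2.card ^ 2 ≤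
      (2 * cS ℓ κ) ^ k * cS ℓ κ * Nat.card {p // Ps0 k J1 J2 U W w v p} then
      (J1.card ^ k * J2.card ^ 2 : ℕ) / ((2 * cS ℓ κ) ^ k * cS ℓ κ *
        Nat.card {p // Ps0 k J1 J2 U W w v p} : ℕ) else 0, fun U W w v => ?_,
      fun S pr P J i1 ax lb ok k1 kJ => ?_⟩⟩,
    fun ι _ _ ℓ k κ S μ pr P J i1 b e cf ax ok k2 kJ hc => ?_, fun ι _ _ k J1 J2 => ?_⟩
  · beta_reduce
    split_ifs with h
    · rw [abs_of_nonneg (by positivity)]
      exact div_le_one_of_le₀ (Nat.cast_le.2 h.2.2) (Nat.cast_nonneg _)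
    · simp
  · obtain ⟨-, m2, -⟩ := hP.mono ι ℓ S.Φ μ pr P J 2 (k + 1) i1 ax.one lb ok one_le_two (by omega) kJ
    obtain ⟨-, -, m3⟩ := hP.mono ι ℓ S.Φ μ pr P J 1 (k + 1) i1 ax.one lb ok le_rfl (by omega) kJ
    rw [← Fintype.sum_prod_type']
    simp only [cs, fv, mul_sum]
    rw [sum_comm (γ := _ × _)]
    refine sum_congr rfl fun w _ => ?_
    rw [sum_comm]
    refine sum_congr rfl fun v _ => ?_
    by_cases h : Gq μ κ J1 J2 (Us S.Φ μ pr P i1 1) (Ws S.Φ μ pr P i1 2) ∧ w ≠ 0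
    swap
    · rw [if_neg fun a => h ⟨a.1, a.2.1⟩]
      rcases not_and_or.1 h with h | h <;> simp [ind, h]
    by_cases hv : v ∈ Vg S.Φ μ pr P (k + 1) ∧ w ∈ Ws S.Φ μ pr P i1 (k + 1)
    swap
    · rcases not_and_or.1 hv with h | h <;> simp [ind, h]
    have l := low (k := k) d h.1 (by have := ok.le; omega) (m3 (by omega) hv.1.1) (m2 hv.2) h.2 hv.1.2
    rw [if_pos ⟨h.1, h.2, l⟩]
    have e : ∀ p : (Option (Fin k) ↪ ι) × ι, ind (Pt J1 J2 p.1 p.2) * ind (Lb pr P i1 ∧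
        (Us S.Φ μ pr P i1 1).ncard ≤ 2 ^ κ ∧ Zr S.Φ μ pr P i1 p.1 ∧ v ∈ Vg S.Φ μ pr P (k + 1) ∧
        w ∈ Ws S.Φ μ pr P i1 (k + 1) ∧ w (.inl (some p.2)) ⬝ᵥ v (some (p.1 none)) = 1) =
        ind (Ps0 k J1 J2 (Us S.Φ μ pr P i1 1) (Ws S.Φ μ pr P i1 2) w v p) := fun p => by
      simp only [← ind_and, lb, h.1.card, hv.1, hv.2, true_and, Ps0, Zr]
    have e' := sum_ind (Ps0 k J1 J2 (Us S.Φ μ pr P i1 1) (Ws S.Φ μ pr P i1 2) w v)
    generalize Nat.card {p // Ps0 k J1 J2 (Us S.Φ μ pr P i1 1) (Ws S.Φ μ pr P i1 2) w v p} = A at *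
    generalize (2 * cS ℓ κ) ^ k * cS ℓ κ = C at *
    have e2 : (C * A : ℕ) * ((J1.card ^ k * J2.card ^ 2 : ℕ) / (C * A : ℕ) : ℝ) =
        (J1.card ^ k * J2.card ^ 2 : ℕ) := by
      rcases eq_or_ne (C * A) 0 with z | z
      · rw [Nat.le_zero.1 (l.trans z.le)]
        simp
      · exact mul_div_cancel₀ _ (Nat.cast_ne_zero.2 z)
    generalize ((J1.card ^ k * J2.card ^ 2 : ℕ) / (C * A : ℕ) : ℝ) = x at *
    simp only [← e] at e'
    rw [sum_congr rfl fun p _ => (show ∀ a b c d e f : ℝ, a * (b * (c * (d * e * f))) =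
      a * c * d * f * (b * e) by intros; ring) _ _ _ _ _ _, ← mul_sum, e']
    simp only [ind, h.1, h.2, hv.1, hv.2, ne_eq, not_false_eq_true, and_self, if_true]
    push_cast at e2
    rw [← e2]
    ring
  · by_cases h : Lb pr P i1 ∧ (Us S.Φ μ pr P i1 1).ncard ≤ 2 ^ κ
    swap
    · refine le_trans (by rcases not_and_or.1 h with h | h <;> simp [fv, ind, h])
        (mul_nonneg (by positivity) (by unfold ind; positivity))
    have m := fun i j => hP.mono ι ℓ S.Φ μ pr P J i j i1 ax.one h.1 ok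
    have hV : ∀ i, 2 ≤ i → i ≤ J → (Vs S.Φ μ pr P i).ncard ≤ 2 ^ κ := fun i a b =>
      (Set.ncard_le_ncard ((m 1 i le_rfl (by omega) b).2.2 a)).trans h.2
    have h1 : vp S.Φ μ pr P (k + 1) ≤ (2 ^ κ) ^ (k - 1) :=
      (prod_le_pow_card _ _ _ fun i hi => hV i (mem_Ico.1 hi).1
        (by have := mem_Ico.1 hi; omega)).trans_eq (by rw [Nat.card_Ico]; rfl)
    have h2 : (Ws S.Φ μ pr P i1 (k + 1)).ncard ≤ 2 ^ ℓ * 2 ^ κ :=
      (Set.ncard_le_ncard (m 2 _ one_le_two (by omega) kJ).2.1).trans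
        ((hZ ι ℓ S μ pr P J i1 ax h.1 ok (by omega)).1.trans_le (Nat.mul_le_mul_left _ h.2))
    rw [fv, abs_mul, Nat.abs_cast, show ind (Lb pr P i1) = 1 from if_pos h.1, mul_one]
    refine (mul_le_mul_of_nonneg_left ((abs_sum_le_sum_abs _ _).trans (sum_le_sum fun w _ =>
      (abs_sum_le_sum_abs _ _).trans (sum_le_sum (g := fun v => ind (w ∈ Ws S.Φ μ pr P i1 (k + 1)) *
        ind (v ∈ Vs S.Φ μ pr P (k + 1))) fun v _ => ?_))) (Nat.cast_nonneg _)).trans ?_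
    · rw [← ind_and, abs_mul, abs_mul, show |sg _| = 1 by unfold sg; split_ifs <;> simp, mul_one]
      unfold ind
      split_ifs with a b
      · simpa using hc _ _ w v
      · exact (b ⟨a.2.2.2.2.1, a.2.2.2.1.1⟩).elim
      all_goals simp
    · rw [← sum_mul_sum, sum_ind, sum_ind]
      obtain ⟨k, rfl⟩ := Nat.exists_eq_add_of_le' (one_le_two.trans k2)
      exact_mod_cast (Nat.mul_le_mul h1 (Nat.mul_le_mul h2 (hV _ (by omega) kJ))).trans_eq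
        (by rw [Nat.add_sub_cancel]; ring)
  · rw [← Fintype.sum_prod_type', sum_ind]
    have := Nat.card_le_card_of_injective (fun x : {p : (Option (Fin k) ↪ ι) × ι //
      Pt J1 J2 p.1 p.2} => ((fun s => ⟨_, x.2.1 s⟩, ⟨_, x.2.2.1⟩, ⟨_, x.2.2.2.1⟩) :
        (Fin k → J1) × J2 × J2)) fun x y e => by
      simp only [Prod.mk.injEq, Subtype.mk.injEq, funext_iff] at e
      exact Subtype.ext (Prod.ext (Embedding.ext fun o => by cases o; exacts [e.2.1, e.1 _]) e.2.2)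
    exact_mod_cast this.trans_eq (by simp [sq])

end Pool.Agent.MP_1246c0_nt.H25
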