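import Pool.Agent.MP_1246c0_nt.H25.SpecG
import Pool.Agent.MP_1246c0_nt.H65.XCC

/-! The correction attached to governing cocycles. -/

namespace Pool.Agent.MP_1246c0_nt.H25

open Finset Matrix Pool.Agent.MP_1246c0_nt.H12

namespace GAM

variable {ι : Type} [DecidableEq ι] {N : Type} [AddCommGroup N] {D W : Finset ι} {a : ι}
  {x0 x1 : ι → ℕ}

theorem alt (f : ι → ℕ → ℤ) (hW : W ⊆ D) :
    ∑ W' ∈ W.powerset, (-1) ^ W'.card * ∏ o ∈ D, f o (W'.piecewise x1 x0 o) =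
      (∏ o ∈ W, (f o (x0 o) - f o (x1 o))) * ∏ o ∈ D \ W, f o (x0 o) := by
  rw [prod_sub, sum_mul]
  refine sum_congr rfl fun W' h => ?_
  have h := mem_powerset.1 h
  rw [← prod_sdiff hW, ← prod_sdiff h,
    prod_congr (s₁ := W') rfl fun o ho => congrArg (f o) (piecewise_eq_of_mem _ _ _ ho),
    prod_congr (s₁ := W \ W') rfl fun o ho => congrArg (f o)
      (piecewise_eq_of_notMem _ _ _ (mem_sdiff.1 ho).2),
    prod_congr (s₁ := D \ W) rfl fun o ho => congrArg (f o)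
      (piecewise_eq_of_notMem _ _ _ fun e => (mem_sdiff.1 ho).2 (h e))]
  ring

theorem key (f : ι → ℕ → ℤ) (u : ℕ → N) (hW : W ⊆ D) :
    cW W x0 x1 (fun x => (∏ s ∈ D.erase a, f s (x s)) • u (x a)) =
      ((∏ s ∈ W.erase a, (f s (x0 s) - f s (x1 s))) * ∏ s ∈ D.erase a \ W.erase a, f s (x0 s)) •
        if a ∈ W then u (x0 a) - u (x1 a) else u (x0 a) := by
  rw [← alt f (erase_subset_erase a hW), sum_smul, cW]
  split_ifs with h
  · conv_lhs => rw [← insert_erase h, sum_powerset_insert (notMem_erase a W), ← sum_add_distrib]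
    refine sum_congr rfl fun W' h' => ?_
    have h' : a ∉ W' := fun e => notMem_erase a W (mem_powerset.1 h' e)
    rw [piecewise_eq_of_notMem _ _ _ h', piecewise_insert_self, card_insert_of_notMem h',
      ← prod_congr (s₁ := D.erase a) rfl fun o ho =>
        congrArg (f o) (piecewise_insert_of_ne W' x1 x0 (mem_erase.1 ho).1)]
    module
  · rw [erase_eq_of_notMem h]
    refine sum_congr rfl fun W' h' => ?_
    rw [piecewise_eq_of_notMem _ _ _ fun e => h (mem_powerset.1 h' e), smul_smul]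

theorem e_sum (S : Finset ι) (t : ι → F2) :
    (-1 : ℤ) ^ (∑ s ∈ S, t s).val = ∏ s ∈ S, (-1) ^ (t s).val := by
  induction S using Finset.induction_on with
  | empty => simp
  | insert s S h ih => rw [sum_insert h, prod_insert h, CC.sgn_add, ih]

theorem form {Ξ : Type} [Fintype Ξ] (t : Ξ → ι → ℕ → F2) (u : ℕ → Ξ → N) (hW : W ⊆ D) :
    ∃ r : Ξ → ℤ, (W = D → r = 1) ∧
    cW W x0 x1 (fun x => ∑ ξ, (-1 : ℤ) ^ (∑ s ∈ D.erase a, t ξ s (x s)).val • u (x a) ξ) =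
      (2 : ℤ) ^ (W.erase a).card • ∑ ξ, (r ξ * ∏ s ∈ W.erase a,
        (((t ξ s (x1 s)).val : ℤ) - (t ξ s (x0 s)).val)) •
        if a ∈ W then u (x0 a) ξ - u (x1 a) ξ else u (x0 a) ξ := by
  refine ⟨fun ξ => ∏ s ∈ D.erase a \ W.erase a, (-1) ^ (t ξ s (x0 s)).val,
    fun e => funext fun ξ => by simp [e], ?_⟩
  have e : ∀ b c : F2, (-1 : ℤ) ^ b.val - (-1) ^ c.val = 2 * (c.val - b.val) := by decide
  simp only [cW, smul_sum, e_sum]
  rw [sum_comm]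
  refine sum_congr rfl fun ξ _ => (key (fun s p => (-1) ^ (t ξ s p).val) (u · ξ) hW).trans ?_
  simp only [e, prod_mul_distrib, prod_const, smul_smul]
  rw [mul_assoc, mul_comm (∏ s ∈ W.erase a, _)]

theorem mem {Ξ : Type} [Fintype Ξ] (t : Ξ → ι → ℕ → F2) (u : ℕ → Ξ → N) (hW : W ⊆ D) {k : ℕ}
    (h0 : ∀ ξ, u (x0 a) ξ ∈ Mu N k) (h1 : a ∈ W → ∀ ξ, u (x1 a) ξ ∈ Mu N k) :
    cW W x0 x1 (fun x => ∑ ξ, (-1 : ℤ) ^ (∑ s ∈ D.erase a, t ξ s (x s)).val • u (x a) ξ) ∈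
      Mu N ((W.erase a).card + k) := by
  obtain ⟨r, -, e⟩ := form (a := a) (x0 := x0) (x1 := x1) t u hW
  obtain ⟨y, hy⟩ : (∑ ξ, (r ξ * ∏ s ∈ W.erase a, (((t ξ s (x1 s)).val : ℤ) - (t ξ s (x0 s)).val)) •
      if a ∈ W then u (x0 a) ξ - u (x1 a) ξ else u (x0 a) ξ) ∈ Mu N k := by
    refine sum_mem fun ξ _ => zsmul_mem ?_ _
    split_ifs with h
    exacts [sub_mem (h0 ξ) (h1 h ξ), h0 ξ]
  refine mem_Mu.2 ⟨y, ?_⟩
  rw [e, ← hy, nsmulAddMonoidHom_apply, pow_add, mul_smul, ← natCast_zsmul, Nat.cast_pow,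
    Nat.cast_ofNat]

end GAM

open GAM in
theorem rowGAM : OfGAM := by
  intro C ι I _ _ _ _ ℓ Φ μ P J i1 D a b X z Q φ A ix zs v ax ok _ cb gv hx q1 q2
  let y : Xi μ.n I → Fin ℓ → ℤ := fun ξ => (toLin' μ.g ^ ξ.1.val) (lf v)
  have eq : gam μ D a ix φ v = fun x h => ∑ ξ : Xi μ.n I,
      (-1 : ℤ) ^ (∑ s ∈ D.erase a, ξ.2 (ix s (x s))).val • ((φ (x a) h ξ).val : ℤ) • y ξ := by
    funext x h
    simp only [gam, smul_smul, mul_comm, y]
  have v0 : ∀ {W x0 x1}, Vx X W x0 x1 → x0 a ∈ A ∧ (a ∈ W → x1 a ∈ A) := fun h =>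
    ⟨by simpa using (hx _ (h ∅ (empty_subset _))).1,
      fun e => by simpa using (hx _ (h {a} (singleton_subset_iff.2 e))).1⟩
  refine ⟨⟨fun W hW x0 x1 h h' vx => ?_, fun W hW x0 x1 h _ => ?_,
    fun W hW ha x0 x1 h vx qs => ?_, fun x hX => ⟨?_, fun x' hX' ne => ?_⟩, fun x hX => ?_⟩,
    fun x0 x1 w h => ?_⟩
  · let c : ℕ → F2 := fun p =>
      chi P h + chi p h + ∑ l ∈ Dᶜ, chi (x0 l) h - ∑ s ∈ D.erase a, chi (zs s) h
    let u : ℕ → Xi μ.n I → Fin ℓ → ℤ := fun p ξ => ((φ p (h * h') ξ).val : ℤ) • y ξ -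
      ((φ p h ξ).val : ℤ) • y ξ - ((-1 : ℤ) ^ (c p).val * (φ p h' (ξ - pix μ.n z h)).val) •
        (toLin' μ.g ^ (kap μ.n h).val) (y (ξ - pix μ.n z h))
    have hu : ∀ p ∈ A, ∀ ξ, u p ξ ∈ Mu _ 1 := fun p hp ξ => by
      have e : ∀ b c t : F2, (2 : ℤ) ∣ (b + c).val - b.val - (-1) ^ t.val * c.val := by decide
      obtain ⟨r, hr⟩ := e (φ p h ξ) (φ p h' (ξ - pix μ.n z h)) (c p)
      have h1 := CC.pow_mod ((C.adm _ _ _ _ _ ok.adm).1 1 μ.n (by have := ok.le; omega))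
        ((kap μ.n h).val + (ξ.1 - kap μ.n h).val) (lf v)
      rw [← ZMod.val_add, add_sub_cancel, pow_add, Module.End.mul_apply] at h1
      refine CC.mem_eq (sub_mem (CC.two_mem (r • y ξ)) (zsmul_mem h1
        ((-1 : ℤ) ^ (c p).val * (φ p h' (ξ - pix μ.n z h)).val))) ?_
      simp only [u, gv.coc p hp h h' ξ]
      change _ - _ • (toLin' μ.g ^ _) ((toLin' μ.g ^ (ξ.1 - kap μ.n h).val) (lf v)) = _
      linear_combination (exp := 1) hr • y ξ
    refine CC.mem_eq (mem (fun ξ s p => ξ.2 (ix s p)) u hW (hu _ (v0 vx).1)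
      fun e => hu _ ((v0 vx).2 e)) (sum_congr rfl fun W' h' => ?_)
    have h' := mem_powerset.1 h'
    have hX := vx W' h'
    have e0 : ∑ l ∈ Dᶜ, chi (W'.piecewise x1 x0 l) h = ∑ l ∈ Dᶜ, chi (x0 l) h :=
      sum_congr rfl fun l hl => by
        rw [piecewise_eq_of_notMem _ _ _ fun e => mem_compl.1 hl (hW (h' e))]
    generalize W'.piecewise x1 x0 = x at hX e0
    obtain ⟨-, -, -, -, -, -, -, -, -, -, -, e1, -⟩ := C.lab ι Φ x P i1 ax (cb.lb x hX)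
    have e2 : ∀ s ∈ D.erase a, chi (z (ix s (x s))) h = chi (zs s) h + chi (x s) h := fun s hs => by
      obtain ⟨n0, e⟩ := (hx x hX).2 s hs
      rw [e, Nat.cast_mul, ax.z.cmul' _ _ _ (by exact_mod_cast n0)
        (by exact_mod_cast ((cb.lb x hX).odd s).1.ne_zero)]
    simp only [eq, CC.acn_apply, map_sum, smul_sum, u, smul_sub, sum_sub_distrib]
    congr 1
    rw [← (Equiv.subRight (pix μ.n z h)).sum_comp]
    refine sum_congr rfl fun ξ _ => ?_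
    have e3 : chi (dd x P) h + ∑ s ∈ D.erase a, (ξ - pix μ.n z h).2 (ix s (x s)) =
        ∑ s ∈ D.erase a, ξ.2 (ix s (x s)) + c (x a) := by
      simp only [Prod.snd_sub, Pi.sub_apply, pix, sum_sub_distrib, c]
      rw [e1, sum_congr rfl e2, sum_add_distrib, ← sum_add_sum_compl D, ← add_sum_erase D _ cb.ad,
        e0]
      ring
    simp only [Equiv.subRight_apply, map_zsmul, smul_smul]
    simp only [← mul_assoc, ← CC.sgn_add, mul_left_comm ((-1 : ℤ) ^ W'.card), e3]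
  · rw [eq]
    exact mem (k := 0) (fun ξ s p => ξ.2 (ix s p)) (fun p ξ => ((φ p h ξ).val : ℤ) • y ξ) hW
      (fun _ => mem_Mu.2 ⟨_, one_smul _ _⟩) fun _ _ => mem_Mu.2 ⟨_, one_smul _ _⟩
  · obtain ⟨r, -, e⟩ := form (a := a) (x0 := x0) (x1 := x1) (fun ξ s p => ξ.2 (ix s p))
      (fun p ξ => ((φ p h ξ).val : ℤ) • y ξ) hW
    have a0 := (v0 vx).1
    have a1 := (v0 vx).2 ha
    have o : ∀ p ∈ A, φ p 1 = 0 := fun p hp => funext fun ξ => by
      have := gv.coc p hp 1 1 ξ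
      simp only [mul_one, pix, CC.chi_one ax.z, CC.kap_one ax.z] at this
      exact left_eq_add.1 (this.trans (by congr 2; exact sub_zero _))
    have : φ (x0 a) h = φ (x1 a) h := by
      rcases qs with e | e | e | e | e | e | ⟨l, h1, h2, e⟩ | ⟨q, h1, h2, h3, e⟩ <;> subst e
      exacts [gv.cls _ a0 _ a1 _ q1.1, gv.cls _ a0 _ a1 _ q1.2.1, gv.cls _ a0 _ a1 _ q1.2.2.1,
        gv.cls _ a0 _ a1 _ q1.2.2.2.1, gv.cls _ a0 _ a1 _ q1.2.2.2.2, (o _ a0).trans (o _ a1).symm,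
        gv.cls _ a0 _ a1 _ (q2 x0 (by simpa using vx ∅ (empty_subset _)) l h1 h2),
        gv.unr _ a0 _ a1 q h1 h2 h3]
    rw [eq]
    exact e.trans (by simp [ha, this])
  · rw [gam, gv.own _ (hx x hX).1, sum_eq_single 0 (fun ξ _ e => by simp [e]) (by simp)]
    simp [show (1 : F2).val = 1 from rfl]
  · simp [gam, gv.oth _ (hx x hX).1 _ (hx x' hX').1 ne.symm]
  · obtain ⟨U, hU, e⟩ := gv.inv _ (hx x hX).1
    exact ⟨U, hU, fun h u hu => by simp [gam, e h u hu]⟩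
  · obtain ⟨r, hr, e⟩ := form (a := a) (x0 := x0) (x1 := x1) (fun ξ s p => ξ.2 (ix s p))
      (fun p ξ => ((φ p h ξ).val : ℤ) • y ξ) (Subset.refl D)
    rw [eq]
    beta_reduce
    rw [e, dotProduct_smul, smul_eq_mul, ← mul_sub, pow_succ]
    refine mul_dvd_mul_left _ ((ZMod.intCast_eq_intCast_iff_dvd_sub _ _ 2).1 ?_)
    have e1 : ∀ ξ, ((lf w ⬝ᵥ y ξ : ℤ) : F2) = w ⬝ᵥ (bar μ.g ^ ξ.1.val *ᵥ v) := fun ξ => by
      have l : ∀ v : Vb ℓ, Int.castRingHom F2 ∘ lf v = v := fun v => funext fun i => by simp [lf]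
      refine ((Int.castRingHom F2).map_dotProduct _ _).trans ?_
      rw [l]
      congr 1
      funext i
      simp only [y, ← toLin'_pow, toLin'_apply, Function.comp]
      rw [RingHom.map_mulVec, l, Matrix.map_pow]
      rfl
    simp only [hr rfl, cb.ad, if_true, dotProduct_sum, dotProduct_smul, ← sub_smul, smul_eq_mul,
      Pi.one_apply, one_mul, hv]
    push_cast
    simp only [e1, ZMod.natCast_zmod_val, CharTwo.sub_eq_add, mul_assoc, add_comm]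

end Pool.Agent.MP_1246c0_nt.H25
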