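import Pool.Agent.MP_1246c0_nt.H25.SpecA

/-! Primes of the ring of all algebraic integers. -/

namespace Pool.Agent.MP_1246c0_nt.H25

open NumberField IsDedekindDomain Pool.Agent.MP_db5b97_nt.H85
open scoped Pointwise

namespace LIFT

section fin

theorem pw0 {K M k : Type} [Field K] [Field M] [Field k] [Finite M] (j : K →+* M) (ι ι' : M →+* k)
    (e : ∀ x, ι' (j x) = ι (j x)) : ∃ a, ∀ x, ι' x = ι x ^ Nat.card K ^ a := by
  let _ := j.toAlgebra
  let _ := ι.toAlgebra
  let _ := (ι.comp j).toAlgebra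
  have : IsScalarTower K M k := IsScalarTower.of_algebraMap_eq fun _ => rfl
  have := Finite.of_injective _ j.injective
  have := Fintype.ofFinite K
  let φ : M →ₐ[K] k := ⟨ι', e⟩
  obtain ⟨a, ha⟩ := (FiniteField.bijective_frobeniusAlgHom_pow K M).2 (φ.restrictNormal M)
  refine ⟨a, fun x => ?_⟩
  have h1 : ι (φ.restrictNormal M x) = ι' x := φ.restrictNormal_commutes M x
  rw [← h1, ← ha, AlgHom.coe_pow, FiniteField.coe_frobeniusAlgHom, pow_iterate, map_pow,
    Nat.card_eq_fintype_card]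

theorem dg0 {K M : Type} [Field K] [Field M] [Finite M] (j : K →+* M) :
    ∃ f, 0 < f ∧ Nat.card M = Nat.card K ^ f ∧ ∀ m, (∀ x : M, x ^ Nat.card K ^ m = x) ↔ f ∣ m := by
  let _ := j.toAlgebra
  have := Finite.of_injective _ j.injective
  have := Fintype.ofFinite K
  refine ⟨Module.finrank K M, Module.finrank_pos, Module.natCard_eq_pow_finrank, fun m => ?_⟩
  rw [← FiniteField.orderOf_frobeniusAlgHom, orderOf_dvd_iff_pow_eq_one, AlgHom.ext_iff,
    AlgHom.coe_pow, FiniteField.coe_frobeniusAlgHom, pow_iterate, Nat.card_eq_fintype_card]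
  rfl

variable {R S k : Type} [CommRing R] [CommRing S] (f : R →+* S) (w : Ideal R) (v : Ideal S)
  [w.IsMaximal] [v.IsMaximal] [Finite (S ⧸ v)] (hw : ∀ x, x ∈ w ↔ f x ∈ v)
include hw

theorem pw [Field k] (ι ι' : S →+* k) (hv : ∀ x ∈ v, ι x = 0) (hv' : ∀ x ∈ v, ι' x = 0)
    (e : ∀ x, ι' (f x) = ι (f x)) : ∃ a, ∀ x, ι' x = ι x ^ Nat.card (R ⧸ w) ^ a := by
  let _ := Ideal.Quotient.field w
  let _ := Ideal.Quotient.field v
  obtain ⟨a, ha⟩ := pw0 (Ideal.quotientMap v f fun x h => (hw x).1 h)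
    (Ideal.Quotient.lift v ι hv) (Ideal.Quotient.lift v ι' hv') fun x => by
      obtain ⟨x, rfl⟩ := Ideal.Quotient.mk_surjective x
      exact e x
  exact ⟨a, fun x => ha (Ideal.Quotient.mk v x)⟩

theorem dg : ∃ n, 0 < n ∧ Nat.card (S ⧸ v) = Nat.card (R ⧸ w) ^ n ∧
    ∀ m, (∀ x : S, x ^ Nat.card (R ⧸ w) ^ m - x ∈ v) ↔ n ∣ m := by
  let _ := Ideal.Quotient.field w
  let _ := Ideal.Quotient.field v
  obtain ⟨n, h1, h2, h3⟩ := dg0 (Ideal.quotientMap v f fun x h => (hw x).1 h)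
  refine ⟨n, h1, h2, fun m => Iff.trans ?_ (h3 m)⟩
  simp only [Ideal.Quotient.mk_surjective.forall, ← map_pow, Ideal.Quotient.eq]

end fin

theorem core (E : IntermediateField ℚ Om) (Q : Ideal OO) (hQ : Q.IsMaximal) (φ : OO →+* OO ⧸ Q)
    (hs : Function.Surjective φ) (e : ∀ x : OO, (x : Om) ∈ E → φ x = Ideal.Quotient.mk Q x) :
    ∃ g ∈ E.fixingSubgroup, ∀ x, Ideal.Quotient.mk Q (g • x) = φ x := by
  let _ := Ideal.Quotient.field Q
  let G : Type := E.fixingSubgroup
  have : CompactSpace G :=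
    isCompact_iff_compactSpace.1 (InfiniteGalois.fixingSubgroup_isClosed E).isCompact
  let _ : TopologicalSpace OO := ⊥
  have : DiscreteTopology OO := ⟨rfl⟩
  have : ContinuousSMul G OO := continuousSMul_iff_stabilizer_isOpen.2 fun x => by
    convert (stabilizer_isOpen_of_isIntegral (K := ℚ) (x : Om)).preimage
      (continuous_subtype_val (p := (· ∈ E.fixingSubgroup))) using 1
    ext g
    exact Subtype.ext_iff
  let A := FixedPoints.subring OO G
  have : Algebra.IsInvariant A OO G := ⟨fun b hb => ⟨⟨b, hb⟩, rfl⟩⟩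
  have hA : ∀ a : A, φ a = Ideal.Quotient.mk Q a := fun a => e a (by
    rw [← InfiniteGalois.fixedField_fixingSubgroup E]
    exact fun g => congrArg Subtype.val (a.2 g))
  have := RingHom.ker_isMaximal_of_surjective φ hs
  obtain ⟨g, hg⟩ := Algebra.IsInvariant.exists_smul_of_under_eq_of_profinite (A := A) (G := G) Q
    (RingHom.ker φ) (Ideal.ext fun a => by
      change (a : OO) ∈ Q ↔ φ a = 0
      rw [hA, Ideal.Quotient.eq_zero_iff_mem])
  let σ : (OO ⧸ Q) →ₐ[A ⧸ Q.under A] OO ⧸ Q :=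
    ⟨Ideal.Quotient.lift Q (φ.comp (MulSemiringAction.toRingHom G OO g)) fun x hx => by
      have : g • x ∈ RingHom.ker φ := hg ▸ Ideal.smul_mem_pointwise_smul g x Q hx
      exact this, fun a => by
      obtain ⟨a, rfl⟩ := Ideal.Quotient.mk_surjective a
      exact (congrArg φ (a.2 g)).trans (hA a)⟩
  have hσ : ∀ x, σ (Ideal.Quotient.mk Q (g⁻¹ • x)) = φ x := fun x => congrArg φ (smul_inv_smul g x)
  obtain ⟨s, hs'⟩ := Ideal.Quotient.stabilizerHom_surjective_of_profinite (G := G) (Q.under A) Q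
    (AlgEquiv.ofBijective σ ⟨σ.injective, fun y => (hs y).elim fun x h => ⟨_, (hσ x).trans h⟩⟩)
  refine ⟨(s.1 * g⁻¹ : G).1, (s.1 * g⁻¹ : G).2, fun x => ?_⟩
  rw [← hσ]
  exact (congrArg _ (mul_smul s.1 g⁻¹ x)).trans (DFunLike.congr_fun hs' (Ideal.Quotient.mk Q _))

variable {Q : Ideal OO}

theorem lift (E : IntermediateField ℚ Om) (h : Ga) (hQ : Q.IsMaximal)
    (e : ∀ x : OO, (x : Om) ∈ E → h • x - x ∈ Q) : ∃ h', In Q h' ∧ ∀ y ∈ E, h' y = h y := by
  obtain ⟨g, g1, g2⟩ := core E Q hQ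
    ((Ideal.Quotient.mk Q).comp (MulSemiringAction.toRingHom Ga OO h))
    (Ideal.Quotient.mk_surjective.comp (MulAction.surjective h))
    fun x hx => Ideal.Quotient.eq.2 (e x hx)
  refine ⟨h * g⁻¹, fun x => Ideal.Quotient.eq.1 ?_, fun y hy => ?_⟩
  · rw [mul_smul]
    exact (g2 _).symm.trans (by rw [smul_inv_smul])
  · rw [AlgEquiv.mul_apply, (IntermediateField.mem_fixingSubgroup_iff _ _).1 (inv_mem g1) y hy]

theorem frb (E : IntermediateField ℚ Om) (hQ : Q.IsMaximal) {p n : ℕ} (hp : p.Prime)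
    (h : (p : OO) ∈ Q) (e : ∀ x : OO, (x : Om) ∈ E → x ^ p ^ n - x ∈ Q) :
    ∃ F ∈ E.fixingSubgroup, Fb Q (p ^ n) F := by
  have := Fact.mk hp
  have : CharP (OO ⧸ Q) p := (CharP.charP_iff_prime_eq_zero hp).2 (by
    rw [← map_natCast (Ideal.Quotient.mk Q), Ideal.Quotient.eq_zero_iff_mem]; exact h)
  obtain ⟨g, g1, g2⟩ := core E Q hQ ((iterateFrobenius _ p n).comp (Ideal.Quotient.mk Q))
    (fun y => by
      obtain ⟨y, rfl⟩ := Ideal.Quotient.mk_surjective y
      have n0 := pow_pos hp.pos n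
      obtain ⟨z, hz⟩ := IsAlgClosed.exists_pow_nat_eq (y : Om) n0
      refine ⟨⟨z, IsIntegral.of_pow n0 (hz ▸ y.2)⟩, ?_⟩
      rw [RingHom.comp_apply, iterateFrobenius_def, ← map_pow]
      exact congrArg _ (Subtype.ext hz))
    fun x hx => Ideal.Quotient.eq.2 (e x hx)
  exact ⟨g, g1, fun x => Ideal.Quotient.eq.1 (g2 x)⟩

theorem ex (L : IntermediateField ℚ Om) {x : OO} (h : (x : Om) ∈ L) :
    ∃ y : 𝓞 L, algebraMap _ OO y = x :=
  ⟨⟨⟨x, h⟩, (isIntegral_algebraMap_iff (algebraMap L Om).injective).1 x.2⟩, rfl⟩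

theorem fix {L : IntermediateField ℚ Om} {h : Ga} (m : h ∈ L.fixingSubgroup) (y : 𝓞 L) :
    h • algebraMap _ OO y = algebraMap _ OO y :=
  Subtype.ext ((IntermediateField.mem_fixingSubgroup_iff _ _).1 m _ y.1.2)

theorem und (L : IntermediateField ℚ Om) [NumberField L] (hQ : Q.IsMaximal) : ∃ w, Ov L Q w := by
  have m := Ideal.isMaximal_comap_of_isIntegral_of_isMaximal (R := 𝓞 L) Q
  exact ⟨⟨_, m.isPrime, Ring.ne_bot_of_isMaximal_of_not_isField m (RingOfIntegers.not_isField L)⟩,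
    fun _ => Iff.rfl⟩

theorem nrm {L : Type} [Field L] [NumberField L] (w : Sp L) :
    Ideal.absNorm w.asIdeal = Nat.card (𝓞 L ⧸ w.asIdeal) := rfl

theorem fin {L : Type} [Field L] [NumberField L] (w : Sp L) : Finite (𝓞 L ⧸ w.asIdeal) :=
  w.asIdeal.finiteQuotientOfFreeOfNeBot w.ne_bot

theorem dsm {g : Ga} (hg : Dc Q g) {x y : OO} (h : x - y ∈ Q) : g • x - g • y ∈ Q := by
  rw [← smul_sub]; exact (hg _).2 h

theorem tr {x y z : OO} (h : x - y ∈ Q) (h' : y - z ∈ Q) : x - z ∈ Q := by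
  simpa using add_mem h h'

theorem sy {x y : OO} (h : x - y ∈ Q) : y - x ∈ Q := by simpa using neg_mem h

theorem po {x y : OO} (h : x - y ∈ Q) (n : ℕ) : x ^ n - y ^ n ∈ Q :=
  Q.mem_of_dvd (sub_dvd_pow_sub_pow x y n) h

theorem inDc {h : Ga} (a : In Q h) : Dc Q h := fun x =>
  ⟨fun b => by simpa using sub_mem b (a x), fun b => by simpa using add_mem (a x) b⟩

theorem fbDc (hQ : Q.IsMaximal) {q : ℕ} {h : Ga} (q0 : 0 < q) (a : Fb Q q h) : Dc Q h := fun x =>
  ⟨fun b => hQ.isPrime.mem_of_pow_mem q (by simpa using sub_mem b (a x)),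
    fun b => by simpa using add_mem (a x) (Q.pow_mem_of_mem b q q0)⟩

theorem dcMul {h h' : Ga} (a : Dc Q h) (b : Dc Q h') : Dc Q (h * h') := fun x => by
  rw [mul_smul, a, b]

theorem dcInv {h : Ga} (a : Dc Q h) : Dc Q h⁻¹ := fun x => by rw [← a, smul_inv_smul]

theorem fbPow {q : ℕ} {h : Ga} (a : Fb Q q h) (k : ℕ) : Fb Q (q ^ k) (h ^ k) := by
  induction k with
  | zero => intro x; simp
  | succ k ih =>
    intro x
    rw [pow_succ, mul_smul, pow_succ', pow_mul]
    exact tr (ih _) (po (a x) _)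

theorem pwr {R : Type} [CommRing R] (E : IntermediateField ℚ Om) [NumberField E] (hQ : Q.IsMaximal)
    (f : R →+* 𝓞 E) (w : Ideal R) [w.IsMaximal] (hw : ∀ x, x ∈ w ↔ algebraMap _ OO (f x) ∈ Q)
    {h : Ga} (a : Dc Q h) (e : ∀ x, h • algebraMap _ OO (f x) = algebraMap _ OO (f x)) :
    ∃ k, ∀ x : OO, (x : Om) ∈ E → h • x - x ^ Nat.card (R ⧸ w) ^ k ∈ Q := by
  let _ := Ideal.Quotient.field Q
  obtain ⟨v, hv⟩ := und E hQ
  have := fin v
  obtain ⟨k, hk⟩ := pw f w v.asIdeal (fun x => (hw x).trans (hv _).symm)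
    ((Ideal.Quotient.mk Q).comp (algebraMap _ OO)) (((Ideal.Quotient.mk Q).comp
      (MulSemiringAction.toRingHom Ga OO h)).comp (algebraMap _ OO))
    (fun x hx => Ideal.Quotient.eq_zero_iff_mem.2 ((hv x).1 hx))
    (fun x hx => Ideal.Quotient.eq_zero_iff_mem.2 ((a _).2 ((hv x).1 hx)))
    fun x => congrArg (Ideal.Quotient.mk Q) (e x)
  refine ⟨k, fun x hx => ?_⟩
  obtain ⟨y, rfl⟩ := ex E hx
  exact Ideal.Quotient.eq.1 (hk y)

theorem pw1 (hQ : Q.IsMaximal) {h : Ga} (a : Dc Q h) (y : OO) : ∃ m, h • y - y ^ m ∈ Q := by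
  let E := IntermediateField.adjoin ℚ {(y : Om)}
  have : FiniteDimensional ℚ E := IntermediateField.adjoin.finiteDimensional
    (Algebra.IsAlgebraic.isAlgebraic _).isIntegral
  have : NumberField E := NumberField.of_module_finite ℚ _
  have := Ideal.isMaximal_comap_of_isIntegral_of_isMaximal (R := ℤ) Q
  obtain ⟨k, hk⟩ := pwr E hQ (Int.castRingHom _) (Q.comap (algebraMap ℤ OO)) (fun x => by simp) a
    fun x => by
      rw [eq_intCast, map_intCast]
      exact map_intCast (MulSemiringAction.toRingHom Ga OO h) x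
  exact ⟨_, hk y (IntermediateField.mem_adjoin_simple_self ℚ _)⟩

theorem com (hQ : Q.IsMaximal) {g h : Ga} (a : Dc Q g) (b : Dc Q h) :
    In Q (g * h * g⁻¹ * h⁻¹) := fun x => by
  obtain ⟨y, rfl⟩ := MulAction.surjective (h * g) x
  obtain ⟨m, hm⟩ := pw1 hQ a y
  obtain ⟨n, hn⟩ := pw1 hQ b y
  have e1 := dsm a hn
  have e2 := dsm b hm
  rw [smul_pow'] at e1 e2
  have e3 := tr e1 (po hm n)
  have e4 := tr e2 (po hn m)
  rw [← pow_mul, mul_comm] at e4
  rw [← pow_mul] at e3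
  beta_reduce
  rw [← mul_smul, show g * h * g⁻¹ * h⁻¹ * (h * g) = g * h by group, mul_smul, mul_smul]
  exact tr e3 (sy e4)

end LIFT

open LIFT in
theorem rowLIFT : SLIFT where
  lift Q E h := lift E h
  frob L _ Q w hQ hw := by
    let _ := Ideal.Quotient.field w.asIdeal
    have := fin w
    have := Fintype.ofFinite (𝓞 L ⧸ w.asIdeal)
    obtain ⟨p, _, n, hp, hn⟩ := FiniteField.card' (𝓞 L ⧸ w.asIdeal)
    rw [nrm, Nat.card_eq_fintype_card, hn]
    refine frb L hQ hp ?_ fun x hx => ?_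
    · rw [← map_natCast (algebraMap (𝓞 L) OO), ← hw, ← Ideal.Quotient.eq_zero_iff_mem, map_natCast,
        CharP.cast_eq_zero]
    · obtain ⟨y, rfl⟩ := ex L hx
      rw [← map_pow, ← map_sub, ← hw, ← Ideal.Quotient.eq, map_pow, ← hn, FiniteField.pow_card]
  frobQ l Q hl hQ h := by
    obtain ⟨F, -, hF⟩ := frb (n := 1) ⊥ hQ hl h fun x hx => by
      obtain ⟨r, hr⟩ := IntermediateField.mem_bot.1 hx
      obtain ⟨z, rfl⟩ := IsIntegrallyClosed.algebraMap_eq_of_integral (x := r)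
        ((isIntegral_algebraMap_iff (R := ℤ) (algebraMap ℚ Om).injective).1 (by rw [hr]; exact x.2))
      obtain rfl : (z : OO) = x :=
        RingOfIntegers.ext ((map_intCast (algebraMap OO Om) z).trans (by simpa using hr))
      obtain ⟨c, hc⟩ := (Int.ModEq.pow_prime_eq_self hl z).symm.dvd
      rw [pow_one, ← Int.cast_pow, ← Int.cast_sub, hc, Int.cast_mul, Int.cast_natCast]
      exact Q.mul_mem_right _ h
    exact ⟨F, pow_one l ▸ hF⟩
  ovr L _ w := by
    obtain ⟨Q, h1, h2⟩ := Ideal.exists_ideal_over_maximal_of_isIntegral (S := OO) w.asIdeal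
      fun x hx => by
        have e : (x.1 : Om) = 0 := congrArg (fun y : OO => (y : Om)) (RingHom.mem_ker.1 hx)
        obtain rfl : x = 0 := Subtype.ext (Subtype.ext e)
        exact zero_mem _
    exact ⟨Q, h1, fun x => by rw [← h2]; rfl⟩
  ovrQ l hl := by
    have := PrincipalIdealRing.isMaximal_of_irreducible (Nat.prime_iff_prime_int.1 hl).irreducible
    obtain ⟨Q, h1, h2⟩ := Ideal.exists_ideal_over_maximal_of_isIntegral (S := OO)
      (Ideal.span {(l : ℤ)}) fun x hx => by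
        obtain rfl : x = 0 := by simpa using hx
        exact zero_mem _
    have : (l : ℤ) ∈ Q.comap (algebraMap ℤ OO) := h2 ▸ Ideal.mem_span_singleton_self _
    exact ⟨Q, h1, by simpa using this⟩
  und L _ Q := und L
  cnj Q g hQ := by
    refine ⟨Q.comap (MulSemiringAction.toRingHom Ga OO g), Ideal.comap_isMaximal_of_surjective _
      (MulAction.surjective g), fun _ => Iff.rfl, fun h a x => ?_, fun h a x => ?_,
      fun q h a x => ?_⟩
    · change g • _ ∈ Q
      rw [smul_sub, mul_smul, mul_smul, smul_inv_smul]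
      exact a _
    · change g • _ ∈ Q ↔ g • _ ∈ Q
      rw [mul_smul, mul_smul, smul_inv_smul]
      exact a _
    · change g • _ ∈ Q
      rw [smul_sub, mul_smul, mul_smul, smul_inv_smul, smul_pow']
      exact a _
  grp Q hQ := by
    refine ⟨fun x => by simp, fun x => by simp, fun h => inDc, fun q h => fbDc hQ,
      fun h h' a b => ⟨dcMul a b, dcInv a⟩, fun h h' a b => ⟨fun x => ?_, fun x => ?_⟩,
      fun g h a b x => ?_, fun g h => com hQ, fun q h k a => fbPow a k⟩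
    · rw [mul_smul]
      exact tr (a _) (b x)
    · simpa using sy (a (h⁻¹ • x))
    · rw [← a, smul_sub, mul_smul, mul_smul, smul_inv_smul]
      exact b _
  dec L E _ _ Q w F h hQ hw le mF hF mh a := by
    obtain ⟨k, hk⟩ := pwr E hQ (RingOfIntegers.mapRingHom (IntermediateField.inclusion le).toRingHom)
      w.asIdeal hw a (fix mh)
    have d := fbDc hQ (pow_pos (Nat.pos_of_ne_zero
      (Ideal.absNorm_eq_zero_iff.not.2 w.ne_bot)) k) (fbPow hF k)
    obtain ⟨i, i1, i2⟩ := lift E ((F ^ k)⁻¹ * h) hQ fun x hx => by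
      rw [← d, smul_sub, mul_smul, smul_inv_smul]
      exact tr (hk x hx) (sy (fbPow hF k x))
    refine ⟨k, i, i1, (IntermediateField.mem_fixingSubgroup_iff _ _).2 fun y hy => ?_,
      fun y hy => ?_⟩
    · exact (i2 y (le hy)).trans ((IntermediateField.mem_fixingSubgroup_iff _ _).1
        (mul_mem (inv_mem (pow_mem mF k)) mh) y hy)
    · rw [AlgEquiv.mul_apply, i2 y hy, ← AlgEquiv.mul_apply, mul_inv_cancel_left]
  deg L E _ _ Q w v F f hQ hw hv le mF hF un f0 mf mn := by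
    have := fin v
    obtain ⟨n, n0, h1, h2⟩ := dg
      (RingOfIntegers.mapRingHom (IntermediateField.inclusion le).toRingHom) w.asIdeal v.asIdeal
      fun x => (hw x).trans (by rw [hv]; rfl)
    have d : n ∣ f := (h2 f).1 fun x => (hv _).2 (by
      have := fbPow hF f (algebraMap _ OO x)
      rw [fix mf] at this
      rw [map_sub, map_pow]
      exact sy this)
    obtain ⟨i, i1, i2⟩ := lift E (F ^ n) hQ fun x hx => by
      obtain ⟨y, rfl⟩ := ex E hx
      have := (hv _).1 ((h2 n).2 dvd_rfl y)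
      rw [map_sub, map_pow] at this
      exact tr (fbPow hF n _) this
    have m := (IntermediateField.mem_fixingSubgroup_iff _ _).1 (un i
      ((IntermediateField.mem_fixingSubgroup_iff _ _).2 fun y hy => (i2 y (le hy)).trans
        ((IntermediateField.mem_fixingSubgroup_iff _ _).1 (pow_mem mF n) y hy)) i1)
    have e : n = f := (Nat.le_of_dvd f0 d).antisymm (not_lt.1 fun l => mn n n0 l
      ((IntermediateField.mem_fixingSubgroup_iff _ _).2 fun y hy => (i2 y hy).symm.trans (m y hy)))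
    exact e ▸ h1

end Pool.Agent.MP_1246c0_nt.H25
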