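import Pool.Agent.MP_1246c0_nt.H55.SpecC

/-! Reduction theory and the upper bound for the number of classes of binary cubic forms. -/

namespace Pool.Agent.MP_1246c0_nt.H53

open Filter MeasureTheory Pool.Agent.MP_1246c0_nt.H55
open scoped Pointwise

/-- a real cubic has a real root -/
theorem root (B C D : ℝ) : ∃ r : ℝ, r ^ 3 + B * r ^ 2 + C * r + D = 0 := by
  obtain ⟨R, hR⟩ : ∃ R : ℝ, R = 1 + |B| + |C| + |D| := ⟨_, rfl⟩
  have b0 := abs_nonneg B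
  have c0 := abs_nonneg C
  have d0 := abs_nonneg D
  have h1 : 1 ≤ R := by linarith
  have h2 : R ≤ R ^ 2 := by nlinarith
  have h3 : R ^ 3 = R ^ 2 * (1 + |B| + |C| + |D|) := by rw [← hR]; ring
  have e1 : |B * R ^ 2| ≤ R ^ 2 * |B| := by
    rw [abs_mul, abs_of_nonneg (by positivity : 0 ≤ R ^ 2), mul_comm]
  have e2 : |C * R| ≤ R ^ 2 * |C| := by
    rw [abs_mul, abs_of_nonneg (by linarith : 0 ≤ R)]; nlinarith
  have e3 : |D| ≤ R ^ 2 * |D| := by nlinarith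
  have e4 := abs_le.1 e1
  have e5 := abs_le.1 e2
  have e6 := abs_le.1 e3
  have hc : Continuous fun r : ℝ => r ^ 3 + B * r ^ 2 + C * r + D := by fun_prop
  refine intermediate_value_univ (-R) R hc ⟨?_, ?_⟩
  · show (-R) ^ 3 + B * (-R) ^ 2 + C * (-R) + D ≤ 0
    nlinarith
  · show 0 ≤ R ^ 3 + B * R ^ 2 + C * R + D
    nlinarith

/-- factorisation of a real form of positive reduced discriminant -/
theorem factor (F : Fm ℝ) (h0 : F 0 ≠ 0) (hd : 0 < dsc F) :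
    ∃ q u v : ℝ, 0 < v ∧ F = mkF (F 0) q u v := by
  obtain ⟨r, hr⟩ := root (3 * F 1 / F 0) (3 * F 2 / F 0) (F 3 / F 0)
  have hr' : F 3 = -(F 0 * r ^ 3 + 3 * F 1 * r ^ 2 + 3 * F 2 * r) := by
    field_simp at hr
    linarith
  obtain ⟨B, hB⟩ : ∃ B, B = 3 * F 1 + F 0 * r := ⟨_, rfl⟩
  obtain ⟨C, hC⟩ : ∃ C, C = 3 * F 2 + r * B := ⟨_, rfl⟩
  have hD : 27 * dsc F = (4 * F 0 * C - B ^ 2) * (F 0 * r ^ 2 + B * r + C) ^ 2 := by
    simp only [dsc, hr', hC, hB]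
    ring
  have hp : 0 < 4 * F 0 * C - B ^ 2 := by
    by_contra hn
    have := mul_nonpos_of_nonpos_of_nonneg (not_lt.1 hn) (sq_nonneg (F 0 * r ^ 2 + B * r + C))
    linarith
  have hq : 0 < (4 * F 0 * C - B ^ 2) / (4 * F 0 ^ 2) := by positivity
  refine ⟨-(F 0 * r), -B / (2 * F 0), Real.sqrt ((4 * F 0 * C - B ^ 2) / (4 * F 0 ^ 2)),
    Real.sqrt_pos.2 hq, ?_⟩
  funext i
  fin_cases i <;> simp only [mkF, Real.sq_sqrt hq.le] <;> simp
  · field_simp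
    rw [hB]; ring
  · field_simp
    rw [hC]; ring
  · field_simp
    rw [hr', hC, hB]; ring

/-- the action on factored forms -/
theorem act_mkF (p q u v a b c d L : ℝ) (h : a * d - b * c = 1)
    (hL : L = (a - u * c) ^ 2 + v ^ 2 * c ^ 2) (h0 : L ≠ 0) :
    act (mkF p q u v) a b c d = mkF (L * (p * a + q * c)) (L * (p * b + q * d))
      (-((a - u * c) * (b - u * d) + v ^ 2 * c * d) / L) (v / L) := by
  have key : (-((a - u * c) * (b - u * d) + v ^ 2 * c * d) / L) ^ 2 + (v / L) ^ 2 =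
      ((b - u * d) ^ 2 + v ^ 2 * d ^ 2) / L := by
    field_simp
    rw [hL]
    linear_combination (-v ^ 2 * (a * d - b * c + 1)) * h
  funext i
  fin_cases i <;> simp only [mkF, key] <;> simp [act, ev]
  · rw [hL]; ring
  · field_simp
    rw [hL]; ring
  · field_simp
    ring
  · field_simp
    ring

/-- reduction of a point of the upper half plane -/
theorem red2 (u v : ℝ) (hv : 0 < v) : ∃ a b c d : ℤ, a * d - b * c = 1 ∧ ∃ L : ℝ,
    L = (a - u * c) ^ 2 + v ^ 2 * c ^ 2 ∧ 0 < L ∧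
    |(-((a - u * c) * (b - u * d) + v ^ 2 * c * d) / L)| ≤ 1 / 2 ∧
    1 ≤ (-((a - u * c) * (b - u * d) + v ^ 2 * c * d) / L) ^ 2 + (v / L) ^ 2 := by
  obtain ⟨g, h1, h2⟩ := ModularGroup.exists_smul_mem_fd ⟨⟨u, v⟩, hv⟩
  have hdet : g 0 0 * g 1 1 - g 0 1 * g 1 0 = 1 := by
    have := g.2
    rwa [Matrix.det_fin_two] at this
  rw [UpperHalfPlane.coe_specialLinearGroup_apply, map_div₀] at h1
  rw [← UpperHalfPlane.coe_re, UpperHalfPlane.coe_specialLinearGroup_apply, Complex.div_re] at h2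
  simp only [eq_intCast, Complex.normSq_apply, Complex.add_re, Complex.mul_re, Complex.ofReal_re,
    Complex.ofReal_im, Complex.add_im, Complex.mul_im, zero_mul, sub_zero, add_zero] at h1 h2
  generalize g 0 0 = a at *
  generalize g 0 1 = b at *
  generalize g 1 0 = c at *
  generalize g 1 1 = d at *
  have hdr : (a : ℝ) * d - b * c = 1 := by exact_mod_cast hdet
  obtain ⟨L, hL⟩ : ∃ L : ℝ, L = (c * u + d) * (c * u + d) + c * v * (c * v) := ⟨_, rfl⟩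
  rw [← hL] at h1 h2
  have h0 : 0 < L := by
    by_contra hn
    have : L = 0 := le_antisymm (not_lt.1 hn)
      (hL ▸ add_nonneg (mul_self_nonneg _) (mul_self_nonneg _))
    rw [this, div_zero] at h1
    linarith
  refine ⟨d, -b, -c, a, by linarith, L, by rw [hL]; push_cast; ring, h0, ?_, ?_⟩
  · convert h2 using 2
    push_cast
    ring
  · convert h1 using 1
    push_cast
    field_simp
    rw [hL]
    linear_combination (-v ^ 2 * (a * d - b * c + 1)) * hdr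

theorem rowRED : RowRED := by
  intro f hA hd
  have h0 : cst ℝ f 0 ≠ 0 := by
    intro h
    have h1 : f 0 = 0 := by simpa [cst] using h
    have := (hA 1 0 (by simp [ev, h1])).1
    simp at this
  have hd' : 0 < dsc (cst ℝ f) := by rw [dsc_cst]; exact_mod_cast hd
  obtain ⟨q, u, v, hv, hf⟩ := factor _ h0 hd'
  generalize cst ℝ f 0 = p at hf
  obtain ⟨a, b, c, d, hdet, L, hL, hL0, hu, huv⟩ := red2 u v hv
  have hdr : (a : ℝ) * d - b * c = 1 := by exact_mod_cast hdet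
  have e1 := act_mkF p q u v a b c d L hdr hL hL0.ne'
  rw [← hf, ← cst_act] at e1
  have e2 : ((ev f a c : ℤ) : ℝ) = L * (p * a + q * c) := by
    have := congrFun e1 0
    simpa [cst, act, mkF] using this
  have hne : ev f a c ≠ 0 := by
    intro h
    obtain ⟨rfl, rfl⟩ := hA a c h
    simp at hdet
  rcases lt_or_gt_of_ne hne with hneg | hpos
  · have e3 := act_mkF p q u v (-a : ℤ) (-b : ℤ) (-c : ℤ) (-d : ℤ) L (by push_cast; linarith)
      (by rw [hL]; push_cast; ring) hL0.ne'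
    rw [← hf, ← cst_act] at e3
    refine ⟨-a, -b, -c, -d, by linarith, _, _, _, _, ?_, ?_, ?_, div_pos hv hL0, e3⟩
    · have : ((ev f a c : ℤ) : ℝ) ≤ (-1 : ℤ) := by exact_mod_cast (by omega)
      push_cast at this ⊢
      linarith
    · convert hu using 3
      push_cast
      ring
    · convert huv using 4
      push_cast
      ring
  · refine ⟨a, b, c, d, hdet, _, _, _, _, ?_, hu, huv, div_pos hv hL0, e1⟩
    rw [← e2]
    exact_mod_cast hpos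

theorem smul_mkF (s p q u v : ℝ) (hs : s ≠ 0) :
    s • mkF (p / s) (q / s) u v = mkF p q u v := by
  funext i
  fin_cases i <;> simp [mkF] <;> field_simp

theorem rowCNT : RowVOL → RowLAT → RowCUSP → RowRED → RowCNT := by
  classical
  rintro hV hL ⟨C, hC⟩ hR M P ρ ε hM ⟨Ω, hΩ, hρ⟩ hε
  obtain ⟨T, hT1, hT2⟩ : ∃ T : ℝ, 1 ≤ T ∧ C ≤ T * (ε / 2) := by
    refine ⟨max 1 (C / (ε / 2)), le_max_left _ _, ?_⟩
    rw [← div_le_iff₀ (half_pos hε)]
    exact le_max_right _ _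
  have hV0 : 0 ≤ Real.pi ^ 2 / 4 := by positivity
  have h1 := hL (KT T) _ (ε / 2) M (hV T).1 hV0 (hV T).2 (half_pos hε) hM
  have h2 : Tendsto (fun X : ℝ => Real.sqrt (Real.sqrt X)) atTop atTop :=
    Real.tendsto_sqrt_atTop.comp Real.tendsto_sqrt_atTop
  have hG : ∀ f : Fm ℤ, ∃ g : Fm ℤ, Aniso f → 0 < dsc f → ∃ a b c d : ℤ, a * d - b * c = 1 ∧
      g = act f a b c d ∧ ∃ p q u v : ℝ, 1 ≤ p ∧ |u| ≤ 1 / 2 ∧ 1 ≤ u ^ 2 + v ^ 2 ∧ 0 < v ∧
        cst ℝ g = mkF p q u v := by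
    intro f
    by_cases h : Aniso f ∧ 0 < dsc f
    · obtain ⟨a, b, c, d, h3, h4⟩ := hR f h.1 h.2
      exact ⟨_, fun _ _ => ⟨a, b, c, d, h3, rfl, h4⟩⟩
    · exact ⟨f, fun h3 h4 => absurd ⟨h3, h4⟩ h⟩
  choose G hG using hG
  filter_upwards [h2.eventually h1, eventually_gt_atTop 0] with X hX hX0 S hS hI
  obtain ⟨s, hs⟩ : ∃ s, s = Real.sqrt (Real.sqrt X) := ⟨_, rfl⟩
  rw [← hs] at hX
  have hs0 : 0 < s := hs ▸ Real.sqrt_pos.2 (Real.sqrt_pos.2 hX0)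
  have hs4 : s ^ 4 = X := by
    rw [show s ^ 4 = (s ^ 2) ^ 2 by ring, hs, Real.sq_sqrt (Real.sqrt_nonneg _),
      Real.sq_sqrt hX0.le]
  have hinj : Set.InjOn G S := by
    intro f hf g hg e
    obtain ⟨a, b, c, d, h3, h4, -⟩ := hG f (hS f hf).1 (hS f hf).2.1
    obtain ⟨a', b', c', d', h3', h4', -⟩ := hG g (hS g hg).1 (hS g hg).2.1
    exact hI f hf g hg ⟨a, b, c, d, a', b', c', d', h3, h3', by rw [← h4, ← h4', e]⟩
  have hS' : ∀ g ∈ S.image G, P g ∧ ((dsc g : ℤ) : ℝ) ≤ X ∧ ∃ p q u v : ℝ, 1 ≤ p ∧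
      |u| ≤ 1 / 2 ∧ 1 ≤ u ^ 2 + v ^ 2 ∧ 0 < v ∧ cst ℝ g = mkF p q u v := by
    intro g hg
    obtain ⟨f, hf, rfl⟩ := Finset.mem_image.1 hg
    obtain ⟨h3, h4, h5, h6⟩ := hS f hf
    obtain ⟨a, b, c, d, h7, h8, h9⟩ := hG f h3 h4
    refine ⟨h8 ▸ h6 a b c d h7, ?_, h9⟩
    rw [h8, dsc_act, h7, one_pow, one_mul]
    exact h5
  rw [← Finset.card_image_of_injOn hinj, ← Finset.card_filter_add_card_filter_not
    (s := S.image G) (fun g => ∃ p q u v : ℝ, 1 ≤ p ∧ |u| ≤ 1 / 2 ∧ T ≤ v ∧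
      cst ℝ g = mkF p q u v)]
  have c1 := hC T X _ hT1 hX0 fun g (hg : g ∈ (S.image G).filter fun g => ∃ p q u v : ℝ, 1 ≤ p ∧
    |u| ≤ 1 / 2 ∧ T ≤ v ∧ cst ℝ g = mkF p q u v) =>
      ⟨(hS' g (Finset.mem_filter.1 hg).1).2.1, (Finset.mem_filter.1 hg).2⟩
  have c2 := hX Ω ((S.image G).filter fun g => ¬ ∃ p q u v : ℝ, 1 ≤ p ∧
    |u| ≤ 1 / 2 ∧ T ≤ v ∧ cst ℝ g = mkF p q u v) (by
      intro g hg
      obtain ⟨hg1, hg2⟩ := Finset.mem_filter.1 hg
      obtain ⟨h3, h4, p, q, u, v, h5, h6, h7, h8, h9⟩ := hS' g hg1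
      refine ⟨hΩ g h3, mkF (p / s) (q / s) u v, ⟨p / s, q / s, u, v, by positivity, h6, h7, h8.le,
        ?_, ?_, rfl⟩, ?_⟩
      · by_contra hn
        exact hg2 ⟨p, q, u, v, h5, h6, (not_le.1 hn).le, h9⟩
      · rw [← dsc_cst, h9, ← hs4] at h4
        have e := dsc_mkF p q u v
        rw [show 4 * v ^ 2 * ((p / s * u + q / s) ^ 2 + (p / s) ^ 2 * v ^ 2) ^ 2 =
          4 * v ^ 2 * ((p * u + q) ^ 2 + p ^ 2 * v ^ 2) ^ 2 / s ^ 4 by field_simp,
          div_le_iff₀ (by positivity)]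
        linarith
      · rw [h9]
        exact smul_mkF s p q u v hs0.ne')
  have : NeZero M := ⟨hM.ne'⟩
  have c3 : (Ω.card : ℝ) ≤ M ^ 4 := by
    have := Finset.card_le_univ Ω
    rw [Fintype.card_fun, ZMod.card, Fintype.card_fin] at this
    exact_mod_cast this
  rw [hs4] at c2
  generalize (((S.image G).filter fun g => ¬ ∃ p q u v : ℝ, 1 ≤ p ∧
    |u| ≤ 1 / 2 ∧ T ≤ v ∧ cst ℝ g = mkF p q u v).card) = n2 at c2 ⊢
  generalize (((S.image G).filter fun g => ∃ p q u v : ℝ, 1 ≤ p ∧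
    |u| ≤ 1 / 2 ∧ T ≤ v ∧ cst ℝ g = mkF p q u v).card) = n1 at c1 ⊢
  have hM4 : (0 : ℝ) < M ^ 4 := by positivity
  have c4 : (n1 : ℝ) ≤ ε / 2 * X := by
    refine le_of_mul_le_mul_right (c1.trans ?_) (lt_of_lt_of_le one_pos hT1)
    nlinarith
  have c5 : (n2 : ℝ) ≤ (Real.pi ^ 2 / 4 * ρ + ε / 2) * X := by
    refine le_of_mul_le_mul_right (c2.trans ?_) hM4
    have a1 := mul_le_mul_of_nonneg_right hρ hV0
    have a2 := mul_le_mul_of_nonneg_right c3 (half_pos hε).le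
    have a3 : (Ω.card : ℝ) * (Real.pi ^ 2 / 4 + ε / 2) ≤ (Real.pi ^ 2 / 4 * ρ + ε / 2) * M ^ 4 := by
      linarith
    have a4 := mul_le_mul_of_nonneg_right a3 hX0.le
    linarith
  push_cast
  linarith

end Pool.Agent.MP_1246c0_nt.H53
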